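import Pool.Agent.Y944.CM.Wed

/-!
# Project CM, part 2, job CM2-PSLB: discreteness
-/

set_option autoImplicit false
open Filter Topology

namespace Pool.Agent.Y944.CM

open Pool.Agent.Y320.CM

theorem norm_wedge_le (u : Fin 2 → ℂ) (q : Sph) (η : ℝ) (h : ∀ i, ‖u i‖ ≤ η) :
    ‖wedge u (sp q)‖ ≤ 2 * η * √(nsp q) := by
  unfold wedge
  have h0 := norm_sp_le q 0
  have h1 := norm_sp_le q 1
  have k0 := h 0
  have k1 := h 1
  have hη : 0 ≤ η := (norm_nonneg _).trans k0
  calc ‖u 0 * sp q 1 - u 1 * sp q 0‖ ≤ ‖u 0 * sp q 1‖ + ‖u 1 * sp q 0‖ := norm_sub_le _ _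
    _ = ‖u 0‖ * ‖sp q 1‖ + ‖u 1‖ * ‖sp q 0‖ := by rw [norm_mul, norm_mul]
    _ ≤ η * √(nsp q) + η * √(nsp q) := by gcongr
    _ = 2 * η * √(nsp q) := by ring

/-- matrices close to the identity move the lines by a small amount -/
theorem near (p : Sph) (ε : ℝ) (hε : 0 < ε) : ∀ᶠ M : Mt in 𝓝 (1 : Mt),
    ∀ q : Sph, wedge (M.mulVec (sp p)) (sp q) = 0 → dist p q < ε := by
  have hp := nsp_pos p
  have hsp := Real.sqrt_pos.2 hp
  set η : ℝ := ε * √(nsp p) / 8 with hη
  have hη0 : 0 < η := by positivity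
  have hcont : ∀ i : Fin 2, Continuous fun M : Mt => (M.mulVec (sp p) - sp p) i := by
    intro i
    have h1 : Continuous fun M : Mt => M.mulVec (sp p) := Continuous.matrix_mulVec continuous_id continuous_const
    exact (continuous_apply i).comp (h1.sub continuous_const)
  have hev : ∀ i : Fin 2, ∀ᶠ M : Mt in 𝓝 (1 : Mt), ‖(M.mulVec (sp p) - sp p) i‖ < η := by
    intro i
    have h1 := (hcont i).norm.tendsto (1 : Mt)
    simp only [Matrix.one_mulVec, sub_self, Pi.zero_apply, norm_zero] at h1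
    exact h1.eventually (gt_mem_nhds hη0)
  filter_upwards [hev 0, hev 1] with M h0 h1 q hq
  have hall : ∀ i, ‖(M.mulVec (sp p) - sp p) i‖ ≤ η := by
    intro i
    fin_cases i
    · exact h0.le
    · exact h1.le
  have h2 := norm_wedge_le _ q η hall
  rw [wedge_sub_left, hq, zero_sub, norm_neg, norm_wedge] at h2
  have hq2 := Real.sqrt_pos.2 (nsp_pos q)
  rw [Real.sqrt_mul hp.le] at h2
  have h3 : dist p q * (√(nsp p) * √(nsp q)) ≤ (ε / 2) * (√(nsp p) * √(nsp q)) := by
    rw [hη] at h2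
    linarith
  have h4 := le_of_mul_le_mul_right h3 (by positivity)
  linarith

theorem pslb : S_PSLB := by
  intro G _ τ hact F hFc hFb Γ hΓ
  classical
  -- three distinct points
  obtain ⟨a1, -⟩ := exists_new ∅
  obtain ⟨a2, ha2⟩ := exists_new {a1}
  obtain ⟨a3, ha3⟩ := exists_new {a1, a2}
  simp only [Finset.mem_singleton, Finset.mem_insert, not_or] at ha2 ha3
  have h12 : a1 ≠ a2 := fun h => ha2 h.symm
  have h13 : a1 ≠ a3 := fun h => ha3.1 h.symm
  have h23 : a2 ≠ a3 := fun h => ha3.2 h.symm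
  have d12 : 0 < dist (F a1) (F a2) := dist_pos.2 (hFb.1.ne h12)
  have d13 : 0 < dist (F a1) (F a3) := dist_pos.2 (hFb.1.ne h13)
  have d23 : 0 < dist (F a2) (F a3) := dist_pos.2 (hFb.1.ne h23)
  obtain ⟨ε, hε, e12, e13, e23⟩ : ∃ ε : ℝ, 0 < ε ∧ 3 * ε ≤ dist (F a1) (F a2) ∧
      3 * ε ≤ dist (F a1) (F a3) ∧ 3 * ε ≤ dist (F a2) (F a3) := by
    refine ⟨min (dist (F a1) (F a2)) (min (dist (F a1) (F a3)) (dist (F a2) (F a3))) / 3,
      by positivity, ?_, ?_, ?_⟩
    · have := min_le_left (dist (F a1) (F a2)) (min (dist (F a1) (F a3)) (dist (F a2) (F a3)))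
      linarith
    · have := (min_le_right (dist (F a1) (F a2)) (min (dist (F a1) (F a3)) (dist (F a2) (F a3)))).trans
        (min_le_left _ _)
      linarith
    · have := (min_le_right (dist (F a1) (F a2)) (min (dist (F a1) (F a3)) (dist (F a2) (F a3)))).trans
        (min_le_right _ _)
      linarith
  -- uniform continuity
  have huc : UniformContinuous F := CompactSpace.uniformContinuous_of_continuous hFc
  obtain ⟨c, hc, hcF⟩ := Metric.uniformContinuous_iff.1 huc ε hε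
  -- the finite set of elements
  have hfin := hact.prop a1 a2 a3 h12 h13 h23 c hc
  set S : Set G := {g : G | c ≤ dist (τ g a1) (τ g a2) ∧ c ≤ dist (τ g a1) (τ g a3) ∧
      c ≤ dist (τ g a2) (τ g a3)} with hS
  have hT : {A : SL2 | ∃ g ∈ S, Rel τ F A g}.Finite := by
    have h1 : {A : SL2 | ∃ g ∈ S, Rel τ F A g} = ⋃ g ∈ S, {A : SL2 | Rel τ F A g} := by
      ext A
      simp
    rw [h1]
    refine hfin.biUnion fun g _ => ?_
    by_cases hne : ∃ A : SL2, Rel τ F A g
    · obtain ⟨A, hA⟩ := hne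
      refine (Set.toFinite {A, -A}).subset ?_
      intro B hB
      rcases rel_unique τ F hFb.2 A B g hA hB with h | h
      · left; exact h
      · right; exact h
    · convert Set.finite_empty (α := SL2)
      ext A
      simp only [Set.mem_setOf_eq, Set.mem_empty_iff_false, iff_false]
      exact fun h => hne ⟨A, h⟩
  -- the matrices close to one
  have hnear : ∀ᶠ M : Mt in 𝓝 (1 : Mt), ∀ A : SL2, (A : Mt) = M → A ∈ Γ →
      A ∈ {A : SL2 | ∃ g ∈ S, Rel τ F A g} := by
    filter_upwards [near (F a1) ε hε, near (F a2) ε hε, near (F a3) ε hε] with M k1 k2 k3 A hAM hAΓ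
    obtain ⟨g, hg⟩ := hΓ A hAΓ
    have l1 := k1 (F (τ g a1)) (by rw [← hAM]; exact hg a1)
    have l2 := k2 (F (τ g a2)) (by rw [← hAM]; exact hg a2)
    have l3 := k3 (F (τ g a3)) (by rw [← hAM]; exact hg a3)
    refine ⟨g, ?_, hg⟩
    have tri : ∀ x y x' y' : Sph, 3 * ε ≤ dist x y → dist x x' < ε → dist y y' < ε →
        ε < dist x' y' := by
      intro x y x' y' h1 h2 h3
      have t1 := dist_triangle x x' y
      have t2 := dist_triangle x' y' y
      rw [dist_comm y' y] at t2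
      linarith
    refine ⟨?_, ?_, ?_⟩
    · by_contra hcon
      push Not at hcon
      have := tri _ _ _ _ e12 l1 l2
      linarith [hcF hcon]
    · by_contra hcon
      push Not at hcon
      have := tri _ _ _ _ e13 l1 l3
      linarith [hcF hcon]
    · by_contra hcon
      push Not at hcon
      have := tri _ _ _ _ e23 l2 l3
      linarith [hcF hcon]
  -- conclusion
  set T : Set Mt := (fun A : SL2 => (A : Mt)) '' ({A : SL2 | ∃ g ∈ S, Rel τ F A g} \ {1}) with hTdef
  have hTfin : T.Finite := (hT.subset Set.diff_subset).image _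
  have h1T : (1 : Mt) ∉ T := by
    rintro ⟨A, ⟨-, hA⟩, hA1⟩
    apply hA
    have h1 : (A : Mt) = ((1 : SL2) : Mt) := by rw [Matrix.SpecialLinearGroup.coe_one]; exact hA1
    exact Subtype.ext h1
  have hTc : ∀ᶠ M : Mt in 𝓝 (1 : Mt), M ∉ T := hTfin.isClosed.isOpen_compl.mem_nhds h1T
  refine ⟨{M | (∀ A : SL2, (A : Mt) = M → A ∈ Γ → A ∈ {A : SL2 | ∃ g ∈ S, Rel τ F A g}) ∧ M ∉ T},
    hnear.and hTc, ?_⟩
  rintro γ hγ ⟨h1, h2⟩
  by_contra hne
  exact h2 ⟨γ, ⟨h1 γ rfl hγ, hne⟩, rfl⟩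

end Pool.Agent.Y944.CM
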