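import Pool.Agent.Y944.CM.Wed

/-!
# Project CM, part 2, job CM2-PSLC: cocompactness
-/

set_option autoImplicit false
open Filter Topology

namespace Pool.Agent.Y944.CM

open Pool.Agent.Y320.CM

/-- a continuous injection does not bring distant points close -/
theorem sep (F : Sph → Sph) (hFc : Continuous F) (hFi : Function.Injective F) (c : ℝ) (hc : 0 < c) :
    ∃ c' : ℝ, 0 < c' ∧ ∀ x y : Sph, c ≤ dist x y → c' ≤ dist (F x) (F y) := by
  set K : Set (Sph × Sph) := {q | c ≤ dist q.1 q.2} with hK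
  have hKc : IsCompact K := (isClosed_le continuous_const continuous_dist).isCompact
  rcases K.eq_empty_or_nonempty with he | hne
  · refine ⟨1, one_pos, fun x y hxy => ?_⟩
    have : (x, y) ∈ K := hxy
    rw [he] at this
    exact absurd this (Set.notMem_empty _)
  · have hcont : Continuous fun q : Sph × Sph => dist (F q.1) (F q.2) :=
      (hFc.comp continuous_fst).dist (hFc.comp continuous_snd)
    obtain ⟨q, hq, hmin⟩ := hKc.exists_isMinOn hne hcont.continuousOn
    refine ⟨dist (F q.1) (F q.2), ?_, ?_⟩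
    swap
    · intro x y hxy
      have h := isMinOn_iff.1 hmin (x, y) hxy
      exact h
    rw [dist_pos]
    intro h
    have h1 := hFi h
    have h2 : c ≤ dist q.1 q.2 := hq
    rw [h1, dist_self] at h2
    linarith

/-- the bound of the entries -/
theorem bound (B : SL2) (q1 q2 q3 : Sph) (c' : ℝ) (hc' : 0 < c') (h12 : c' ≤ dist q1 q2)
    (h13 : c' ≤ dist q1 q3) (h23 : c' ≤ dist q2 q3)
    (k1 : wedge ((B : Mt).mulVec ![1, 0]) (sp q1) = 0)
    (k2 : wedge ((B : Mt).mulVec ![0, 1]) (sp q2) = 0)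
    (k3 : wedge ((B : Mt).mulVec ![1, 0] + (B : Mt).mulVec ![0, 1]) (sp q3) = 0) (i j : Fin 2) :
    ‖(B : Mt) i j‖ ≤ 2 / c' := by
  obtain ⟨α, hα⟩ := exists_smul (sp_ne_zero q1) k1
  obtain ⟨β, hβ⟩ := exists_smul (sp_ne_zero q2) k2
  have n1 := Real.sqrt_pos.2 (nsp_pos q1)
  have n2 := Real.sqrt_pos.2 (nsp_pos q2)
  have n3 := Real.sqrt_pos.2 (nsp_pos q3)
  have hdet : α * (β * wedge (sp q1) (sp q2)) = 1 := by
    have h1 := wedge_SL B ![1, 0] ![0, 1]
    rw [hα, hβ, wedge_smul_left, wedge_smul_right] at h1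
    rw [h1]
    unfold wedge
    simp
  have hsum : α * wedge (sp q1) (sp q3) + β * wedge (sp q2) (sp q3) = 0 := by
    rw [hα, hβ, wedge_add_left, wedge_smul_left, wedge_smul_left] at k3
    exact k3
  have e1 : ‖α‖ * (‖β‖ * (dist q1 q2 / 2 * (√(nsp q1) * √(nsp q2)))) = 1 := by
    have h1 := congrArg norm hdet
    rw [norm_mul, norm_mul, norm_wedge, norm_one, Real.sqrt_mul (nsp_pos q1).le] at h1
    exact h1
  have e2 : ‖α‖ * (dist q1 q3 / 2 * (√(nsp q1) * √(nsp q3))) =
      ‖β‖ * (dist q2 q3 / 2 * (√(nsp q2) * √(nsp q3))) := by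
    have h1 : α * wedge (sp q1) (sp q3) = -(β * wedge (sp q2) (sp q3)) := by
      linear_combination hsum
    have h2 := congrArg norm h1
    rw [norm_neg, norm_mul, norm_mul, norm_wedge, norm_wedge, Real.sqrt_mul (nsp_pos q1).le,
      Real.sqrt_mul (nsp_pos q2).le] at h2
    exact h2
  set a : ℝ := ‖α‖ * √(nsp q1) with ha
  set b : ℝ := ‖β‖ * √(nsp q2) with hb
  have ha0 : 0 ≤ a := by positivity
  have hb0 : 0 ≤ b := by positivity
  have f1 : a * b * dist q1 q2 = 2 := by
    rw [ha, hb]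
    linear_combination 2 * e1
  have f2 : a * dist q1 q3 = b * dist q2 q3 := by
    have h1 : (a * dist q1 q3) * √(nsp q3) = (b * dist q2 q3) * √(nsp q3) := by
      rw [ha, hb]
      linear_combination 2 * e2
    exact mul_right_cancel₀ n3.ne' h1
  have t13 := dist_le_two q1 q3
  have t23 := dist_le_two q2 q3
  have g1 : a * c' ≤ 2 * b := by
    calc a * c' ≤ a * dist q1 q3 := by gcongr
      _ = b * dist q2 q3 := f2
      _ ≤ b * 2 := by gcongr
      _ = 2 * b := by ring
  have g2 : b * c' ≤ 2 * a := by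
    calc b * c' ≤ b * dist q2 q3 := by gcongr
      _ = a * dist q1 q3 := f2.symm
      _ ≤ a * 2 := by gcongr
      _ = 2 * a := by ring
  have g3 : a * b * c' ≤ 2 := by
    calc a * b * c' ≤ a * b * dist q1 q2 := by gcongr
      _ = 2 := f1
  have ga : a ≤ 2 / c' := by
    rw [le_div_iff₀ hc']
    have h1 : (a * c') ^ 2 ≤ 2 ^ 2 := by
      calc (a * c') ^ 2 = (a * c') * (a * c') := by ring
        _ ≤ (a * c') * (2 * b) := by gcongr
        _ = 2 * (a * b * c') := by ring
        _ ≤ 2 ^ 2 := by linarith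
    exact le_of_sq_le_sq h1 (by norm_num)
  have gb : b ≤ 2 / c' := by
    rw [le_div_iff₀ hc']
    have h1 : (b * c') ^ 2 ≤ 2 ^ 2 := by
      calc (b * c') ^ 2 = (b * c') * (b * c') := by ring
        _ ≤ (b * c') * (2 * a) := by gcongr
        _ = 2 * (a * b * c') := by ring
        _ ≤ 2 ^ 2 := by linarith
    exact le_of_sq_le_sq h1 (by norm_num)
  have hcol0 : ∀ i, (B : Mt) i 0 = α * sp q1 i := by
    intro i
    have h1 := congrFun hα i
    rw [Pi.smul_apply, smul_eq_mul] at h1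
    rw [← h1]
    fin_cases i
    · show _ = (B : Mt).mulVec ![1, 0] 0
      rw [mulVec_zero']; simp
    · show _ = (B : Mt).mulVec ![1, 0] 1
      rw [mulVec_one']; simp
  have hcol1 : ∀ i, (B : Mt) i 1 = β * sp q2 i := by
    intro i
    have h1 := congrFun hβ i
    rw [Pi.smul_apply, smul_eq_mul] at h1
    rw [← h1]
    fin_cases i
    · show _ = (B : Mt).mulVec ![0, 1] 0
      rw [mulVec_zero']; simp
    · show _ = (B : Mt).mulVec ![0, 1] 1
      rw [mulVec_one']; simp
  have hj0 : ‖(B : Mt) i 0‖ ≤ 2 / c' := by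
    rw [hcol0, norm_mul]
    refine le_trans ?_ ga
    rw [ha]
    have := norm_sp_le q1 i
    gcongr
  have hj1 : ‖(B : Mt) i 1‖ ≤ 2 / c' := by
    rw [hcol1, norm_mul]
    refine le_trans ?_ gb
    rw [hb]
    have := norm_sp_le q2 i
    gcongr
  fin_cases j
  · exact hj0
  · exact hj1

theorem pslc : S_PSLC := by
  intro G _ τ hact F hFc hFb Γ hΓ
  obtain ⟨c, hc, hcoc⟩ := hact.coc
  obtain ⟨c', hc', hsep⟩ := sep F hFc hFb.1 c hc
  refine ⟨Set.pi Set.univ fun _ : Fin 2 => Set.pi Set.univ fun _ : Fin 2 =>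
    Metric.closedBall (0 : ℂ) (2 / c'), ?_, ?_⟩
  · exact isCompact_univ_pi fun _ => isCompact_univ_pi fun _ => isCompact_closedBall _ _
  · intro h
    have hv0 : ((h : SL2) : Mt).mulVec ![1, 0] + ((h : SL2) : Mt).mulVec ![0, 1] =
        ((h : SL2) : Mt).mulVec ![1, 1] := by
      rw [← Matrix.mulVec_add]
      congr 1
      ext i
      fin_cases i <;> simp
    set u1 := ((h : SL2) : Mt).mulVec ![1, 0] with hu1
    set u2 := ((h : SL2) : Mt).mulVec ![0, 1] with hu2
    set u3 := ((h : SL2) : Mt).mulVec ![1, 1] with hu3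
    have w12 : wedge u1 u2 = 1 := by
      rw [hu1, hu2, wedge_SL]; unfold wedge; simp
    have w13 : wedge u1 u3 = 1 := by
      rw [hu1, hu3, wedge_SL]; unfold wedge; simp
    have w23 : wedge u2 u3 = -1 := by
      rw [hu2, hu3, wedge_SL]; unfold wedge; simp
    have z1 : u1 ≠ 0 := by
      intro h0
      rw [h0] at w12
      unfold wedge at w12
      simp at w12
    have z2 : u2 ≠ 0 := by
      intro h0
      rw [h0] at w12
      unfold wedge at w12
      simp at w12
    have z3 : u3 ≠ 0 := by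
      intro h0
      rw [h0] at w13
      unfold wedge at w13
      simp at w13
    obtain ⟨p1, c1, hc1, e1⟩ := exists_sp u1 z1
    obtain ⟨p2, c2, hc2, e2⟩ := exists_sp u2 z2
    obtain ⟨p3, c3, hc3, e3⟩ := exists_sp u3 z3
    have d12 : p1 ≠ p2 := by
      rintro rfl
      rw [e1, e2, wedge_smul_left, wedge_smul_right, wedge_self] at w12
      simp at w12
    have d13 : p1 ≠ p3 := by
      rintro rfl
      rw [e1, e3, wedge_smul_left, wedge_smul_right, wedge_self] at w13
      simp at w13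
    have d23 : p2 ≠ p3 := by
      rintro rfl
      rw [e2, e3, wedge_smul_left, wedge_smul_right, wedge_self] at w23
      simp at w23
    obtain ⟨b1, hb1⟩ := hFb.2 p1
    obtain ⟨b2, hb2⟩ := hFb.2 p2
    obtain ⟨b3, hb3⟩ := hFb.2 p3
    obtain ⟨g, g12, g13, g23⟩ := hcoc b1 b2 b3 (fun e => d12 (by rw [← hb1, ← hb2, e]))
      (fun e => d13 (by rw [← hb1, ← hb3, e])) (fun e => d23 (by rw [← hb2, ← hb3, e]))
    obtain ⟨A, hAΓ, hA⟩ := hΓ g
    have kk : ∀ (u : Fin 2 → ℂ) (p b : Sph) (c : ℂ), u = c • sp p → F b = p →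
        wedge ((A : Mt).mulVec u) (sp (F (τ g b))) = 0 := by
      rintro u p b c rfl rfl
      rw [Matrix.mulVec_smul, wedge_smul_left, hA b, mul_zero]
    refine ⟨A, hAΓ, ?_⟩
    have hmul : ∀ v : Fin 2 → ℂ, ((A * h : SL2) : Mt).mulVec v =
        (A : Mt).mulVec (((h : SL2) : Mt).mulVec v) := by
      intro v
      rw [Matrix.SpecialLinearGroup.coe_mul, Matrix.mulVec_mulVec]
    have hb := bound (A * h) (F (τ g b1)) (F (τ g b2)) (F (τ g b3)) c' hc' (hsep _ _ g12)
      (hsep _ _ g13) (hsep _ _ g23)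
      (by rw [hmul]; exact kk u1 p1 b1 c1 e1 hb1)
      (by rw [hmul]; exact kk u2 p2 b2 c2 e2 hb2)
      (by
        rw [hmul, hmul, ← Matrix.mulVec_add, hv0]
        exact kk u3 p3 b3 c3 e3 hb3)
    intro i _ j _
    rw [mem_closedBall_zero_iff]
    exact hb i j

end Pool.Agent.Y944.CM
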