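import Pool.Agent.Y320.CM.Basic2

/-!
# Project CM, part 2: elementary facts on `wedge`
-/

set_option autoImplicit false
open Filter Topology

namespace Pool.Agent.Y944.CM

open Pool.Agent.Y320.CM

/-- the matrices -/
abbrev Mt : Type := Matrix (Fin 2) (Fin 2) ℂ

theorem wedge_add_left (u v w : Fin 2 → ℂ) : wedge (u + v) w = wedge u w + wedge v w := by
  unfold wedge; simp only [Pi.add_apply]; ring

theorem wedge_sub_left (u v w : Fin 2 → ℂ) : wedge (u - v) w = wedge u w - wedge v w := by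
  unfold wedge; simp only [Pi.sub_apply]; ring

theorem wedge_smul_left (c : ℂ) (u v : Fin 2 → ℂ) : wedge (c • u) v = c * wedge u v := by
  unfold wedge; simp only [Pi.smul_apply, smul_eq_mul]; ring

theorem wedge_smul_right (c : ℂ) (u v : Fin 2 → ℂ) : wedge u (c • v) = c * wedge u v := by
  unfold wedge; simp only [Pi.smul_apply, smul_eq_mul]; ring

theorem wedge_self (u : Fin 2 → ℂ) : wedge u u = 0 := by unfold wedge; ring

theorem wedge_swap (u v : Fin 2 → ℂ) : wedge u v = - wedge v u := by unfold wedge; ring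

theorem mulVec_zero' (M : Mt) (u : Fin 2 → ℂ) : M.mulVec u 0 = M 0 0 * u 0 + M 0 1 * u 1 := by
  rw [Matrix.mulVec, dotProduct, Fin.sum_univ_two]

theorem mulVec_one' (M : Mt) (u : Fin 2 → ℂ) : M.mulVec u 1 = M 1 0 * u 0 + M 1 1 * u 1 := by
  rw [Matrix.mulVec, dotProduct, Fin.sum_univ_two]

theorem wedge_mulVec (M : Mt) (u v : Fin 2 → ℂ) :
    wedge (M.mulVec u) (M.mulVec v) = M.det * wedge u v := by
  unfold wedge
  rw [mulVec_zero', mulVec_one', mulVec_zero', mulVec_one', Matrix.det_fin_two]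
  ring

theorem wedge_SL (A : SL2) (u v : Fin 2 → ℂ) :
    wedge ((A : Mt).mulVec u) ((A : Mt).mulVec v) = wedge u v := by
  rw [wedge_mulVec, A.det_coe, one_mul]

/-- parallel vectors -/
theorem exists_smul {u v : Fin 2 → ℂ} (hu : u ≠ 0) (h : wedge v u = 0) : ∃ c : ℂ, v = c • u := by
  unfold wedge at h
  by_cases h0 : u 0 = 0
  · have h1 : u 1 ≠ 0 := by
      intro h1
      apply hu
      ext i
      fin_cases i
      · exact h0
      · exact h1
    refine ⟨v 1 / u 1, ?_⟩
    rw [h0, mul_zero, sub_zero] at h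
    have h2 : v 0 = 0 := (mul_eq_zero.1 h).resolve_right h1
    ext i
    fin_cases i
    · simp [h0, h2]
    · simp [h1]
  · refine ⟨v 0 / u 0, ?_⟩
    ext i
    fin_cases i
    · simp [h0]
    · show v 1 = v 0 / u 0 * u 1
      field_simp
      linear_combination -h

/-- two vectors parallel to the same nonzero vector -/
theorem wedge_trans {u v w : Fin 2 → ℂ} (hu : u ≠ 0) (h1 : wedge v u = 0) (h2 : wedge w u = 0) :
    wedge v w = 0 := by
  obtain ⟨c, rfl⟩ := exists_smul hu h1
  obtain ⟨d, rfl⟩ := exists_smul hu h2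
  rw [wedge_smul_left, wedge_smul_right, wedge_self]
  ring

/-- the south pole -/
noncomputable def south : Sph :=
  ⟨!₂[0, 0, -1], by
    rw [mem_sphere_zero_iff_norm, EuclideanSpace.norm_eq]
    simp only [Fin.sum_univ_three, Real.norm_eq_abs, sq_abs]
    simp⟩

theorem sp_south : sp south = ![0, 1] := by
  unfold sp south
  simp

theorem sp_sg_zero : sp (sg 0) = (2 : ℂ) • ![1, 0] := by
  rw [sp_sg]
  simp

theorem sp_sg_one : sp (sg 1) = ![1, 1] := by
  rw [sp_sg]
  norm_num

/-- every nonzero vector is in the line of a point of the sphere -/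
theorem exists_sp (u : Fin 2 → ℂ) (hu : u ≠ 0) : ∃ (p : Sph) (c : ℂ), c ≠ 0 ∧ u = c • sp p := by
  by_cases h0 : u 0 = 0
  · have h1 : u 1 ≠ 0 := by
      intro h1
      apply hu
      ext i
      fin_cases i
      · exact h0
      · exact h1
    refine ⟨south, u 1, h1, ?_⟩
    rw [sp_south]
    ext i
    fin_cases i
    · simp [h0]
    · simp
  · set z : ℂ := u 1 / u 0 with hz
    have h : 0 < 1 + ‖z‖ ^ 2 := by positivity
    have hr : ((2 / (1 + ‖z‖ ^ 2) : ℝ) : ℂ) ≠ 0 := by
      exact_mod_cast (div_pos two_pos h).ne'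
    refine ⟨sg z, u 0 / ((2 / (1 + ‖z‖ ^ 2) : ℝ) : ℂ), div_ne_zero h0 hr, ?_⟩
    rw [sp_sg, smul_smul, div_mul_cancel₀ _ hr]
    ext i
    fin_cases i
    · simp
    · show u 1 = u 0 * z
      rw [hz]
      field_simp

theorem norm_sp_le (p : Sph) (i : Fin 2) : ‖sp p i‖ ≤ √(nsp p) := by
  apply Real.le_sqrt_of_sq_le
  unfold nsp
  fin_cases i
  · show ‖sp p 0‖ ^ 2 ≤ _
    nlinarith [sq_nonneg ‖sp p 1‖]
  · show ‖sp p 1‖ ^ 2 ≤ _
    nlinarith [sq_nonneg ‖sp p 0‖]

/-- the matrices which represent an element are determined up to sign -/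
theorem rel_unique {G : Type} (τ : G → Sph → Sph) (F : Sph → Sph) (hF : Function.Surjective F)
    (A B : SL2) (g : G) (hA : Rel τ F A g) (hB : Rel τ F B g) : B = A ∨ B = -A := by
  set C : SL2 := A⁻¹ * B with hC
  have key : ∀ p : Sph, wedge (sp p) ((C : Mt).mulVec (sp p)) = 0 := by
    intro p
    obtain ⟨a, rfl⟩ := hF p
    have h1 : wedge ((A : Mt).mulVec (sp (F a))) ((B : Mt).mulVec (sp (F a))) = 0 :=
      wedge_trans (sp_ne_zero _) (hA a) (hB a)
    rw [← wedge_SL A, Matrix.mulVec_mulVec, ← Matrix.SpecialLinearGroup.coe_mul, hC,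
      mul_inv_cancel_left]
    exact h1
  have k1 := key south
  have k2 := key (sg 0)
  have k3 := key (sg 1)
  rw [sp_south] at k1
  rw [sp_sg_zero] at k2
  rw [sp_sg_one] at k3
  unfold wedge at k1 k2 k3
  rw [mulVec_zero', mulVec_one'] at k1 k2 k3
  simp at k1 k2 k3
  have hdet := C.det_coe
  rw [Matrix.det_fin_two] at hdet
  have h01 : (C : Mt) 0 1 = 0 := by linear_combination k1
  have h10 : (C : Mt) 1 0 = 0 := by linear_combination k2
  have h11 : (C : Mt) 1 1 = (C : Mt) 0 0 := by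
    rw [h01, h10] at k3
    linear_combination k3
  rw [h01, h11, zero_mul, sub_zero] at hdet
  have h2 : (C : Mt) 0 0 = 1 ∨ (C : Mt) 0 0 = -1 := mul_self_eq_one_iff.1 hdet
  have hBC : B = A * C := by rw [hC, mul_inv_cancel_left]
  rcases h2 with h3 | h3
  · left
    have : C = 1 := by
      ext i j
      fin_cases i <;> fin_cases j <;> simp [h01, h10, h11, h3]
    rw [hBC, this, mul_one]
  · right
    have : C = -1 := by
      ext i j
      fin_cases i <;> fin_cases j <;> simp [h01, h10, h11, h3]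
    rw [hBC, this, mul_neg, mul_one]

end Pool.Agent.Y944.CM
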